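import Pool.Agent.ZGO.StmtsB

/-!
CUT: restriction of a shift module to a stable subgroup and a stable infinite submodule.
-/

set_option autoImplicit false

namespace Pool.Agent.ZGO.H63

open Pool.Agent.ZGO

theorem cut : CutStmt := by
  intro P _ ψ X _ θ ρ hS H Z hH hZ hHZ hinf
  let ψ' : H →* H :=
    { toFun := fun h => ⟨ψ h, hH h h.2⟩
      map_one' := Subtype.ext (by show ψ ((1 : H) : P) = 1; rw [Subgroup.coe_one, map_one])
      map_mul' := fun a b => Subtype.ext (by
        show ψ ((a * b : H) : P) = ψ a * ψ b
        rw [Subgroup.coe_mul, map_mul]) }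
  let θ' : Z →+ Z :=
    { toFun := fun z => ⟨θ z, hZ z z.2⟩
      map_zero' := Subtype.ext (by show θ ((0 : Z) : X) = 0; rw [AddSubgroup.coe_zero, map_zero])
      map_add' := fun a b => Subtype.ext (by
        show θ ((a + b : Z) : X) = θ a + θ b
        rw [AddSubgroup.coe_add, map_add]) }
  let ρ' : H →* AddMonoid.End Z :=
    { toFun := fun h =>
        { toFun := fun z => ⟨ρ h z, hHZ h h.2 z z.2⟩
          map_zero' := Subtype.ext (by
            show ρ h ((0 : Z) : X) = 0
            rw [AddSubgroup.coe_zero, map_zero])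
          map_add' := fun a b => Subtype.ext (by
            show ρ h ((a + b : Z) : X) = ρ h a + ρ h b
            rw [AddSubgroup.coe_add, map_add]) }
      map_one' := by
        ext z
        show ρ ((1 : H) : P) z = z
        rw [Subgroup.coe_one, map_one]
        rfl
      map_mul' := fun a b => by
        ext z
        show ρ ((a * b : H) : P) z = ρ a (ρ b z)
        rw [Subgroup.coe_mul, map_mul]
        rfl }
  have hit : ∀ n (z : Z), (((⇑θ')^[n] z : Z) : X) = (⇑θ)^[n] z := by
    intro n
    induction n with
    | zero => intro z; rfl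
    | succ n ih =>
      intro z
      rw [Function.iterate_succ_apply, Function.iterate_succ_apply, ih]
      rfl
  refine ⟨ψ', θ', ρ', fun h => rfl, fun z => rfl, fun h z => rfl, ?_⟩
  refine ⟨?_, ?_, ?_, ?_, ?_⟩
  · exact Set.infinite_coe_iff.2 hinf
  · intro z
    obtain ⟨n, hn⟩ := hS.nil z
    exact ⟨n, Subtype.ext (by rw [hit, hn]; rfl)⟩
  · have h1 : {z : Z | θ' z = 0} = (fun z : Z => (z : X)) ⁻¹' {x | θ x = 0} := by
      ext z
      constructor
      · intro h
        exact congrArg (fun z : Z => (z : X)) h
      · intro h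
        exact Subtype.ext h
    rw [h1]
    exact hS.fin.preimage Subtype.coe_injective.injOn
  · intro g z
    exact Subtype.ext (hS.eqv g z)
  · intro g n z hz
    apply Subtype.ext
    rw [hit]
    apply hS.ker
    rw [← hit, hz]
    rfl

end Pool.Agent.ZGO.H63
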