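import Pool.Agent.ZGO.StmtsA

/-!
IDX: index formulas for the iterates of an injective endomorphism with image of finite index.
-/

set_option autoImplicit false

namespace Pool.Agent.ZGO.H63

open Pool.Agent.ZGO

theorem index_itr {G : Type} [Group G] (ψ : G →* G) (hψ : Function.Injective ψ) (i : ℕ) :
    (itr ψ i).range.index = ψ.range.index ^ i := by
  induction i with
  | zero =>
    have h : (itr ψ 0).range = ⊤ := by
      show (MonoidHom.id G).range = ⊤
      exact MonoidHom.range_eq_top.2 Function.surjective_id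
    rw [h, Subgroup.index_top, pow_zero]
  | succ i ih =>
    have h : (itr ψ (i + 1)).range = (itr ψ i).range.map ψ := by
      show (ψ.comp (itr ψ i)).range = (itr ψ i).range.map ψ
      rw [MonoidHom.range_comp]
    rw [h, Subgroup.index_map_of_injective _ hψ, ih, pow_succ]

theorem itr_mem {G : Type} [Group G] (ψ : G →* G) (N : Subgroup G) (hN : ∀ g ∈ N, ψ g ∈ N)
    (i : ℕ) : ∀ g ∈ N, itr ψ i g ∈ N := by
  induction i with
  | zero => intro g hg; exact hg
  | succ i ih => intro g hg; exact hN _ (ih g hg)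

theorem rel_ne {G : Type} [Group G] (N : Subgroup G) (hN : N.Normal) (hf : N.FiniteIndex)
    (K : Subgroup G) : N.relIndex K ≠ 0 := by
  intro h
  have h1 : N.relIndex K ∣ N.index := Subgroup.relIndex_dvd_index_of_normal N K
  rw [h] at h1
  exact hf.index_ne_zero (Nat.eq_zero_of_zero_dvd h1)

theorem idx2 {G : Type} [Group G] (ψ : G →* G) (N : Subgroup G) (hN : N.Normal)
    (hf : N.FiniteIndex) (hψN : ∀ g ∈ N, ψ g ∈ N) (i : ℕ) :
    N.relIndex (N.comap (itr ψ i)) = ((itr ψ i).range ⊔ N).index := by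
  have h1 : N ≤ N.comap (itr ψ i) := fun g hg => itr_mem ψ N hψN i g hg
  have e1 : N.relIndex (N.comap (itr ψ i)) * (N.comap (itr ψ i)).index = N.index :=
    Subgroup.relIndex_mul_index h1
  have e2 : N.relIndex ((itr ψ i).range ⊔ N) * ((itr ψ i).range ⊔ N).index = N.index :=
    Subgroup.relIndex_mul_index le_sup_right
  rw [Subgroup.index_comap] at e1
  rw [Subgroup.relIndex_sup_right, ← e1, mul_comm] at e2
  exact (Nat.eq_of_mul_eq_mul_right (Nat.pos_of_ne_zero (rel_ne N hN hf _)) e2).symm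

theorem idx : IdxStmt := by
  intro G _ ψ hψ hd
  refine ⟨index_itr ψ hψ, ?_⟩
  intro N hN hf hψN
  have h3 : N.relIndex (N.comap ψ) ≤ ψ.range.index := by
    have h := idx2 ψ N hN hf hψN 1
    have e : itr ψ 1 = ψ := by
      show ψ.comp (MonoidHom.id G) = ψ
      exact MonoidHom.comp_id ψ
    rw [e] at h
    rw [h]
    exact Nat.le_of_dvd (Nat.pos_of_ne_zero hd) (Subgroup.index_dvd_of_le le_sup_left)
  refine ⟨idx2 ψ N hN hf hψN, h3, ?_⟩
  intro i
  have e : (N.comap (itr ψ i)).relIndex (N.comap (itr ψ (i + 1)))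
      = N.relIndex ((N.comap (itr ψ (i + 1))).map (itr ψ i)) :=
    Subgroup.relIndex_comap N (itr ψ i) _
  rw [e]
  refine ⟨?_, rel_ne N hN hf _⟩
  refine le_trans (Subgroup.relIndex_le_of_le_right ?_ (rel_ne N hN hf (N.comap ψ))) h3
  rintro _ ⟨g, hg, rfl⟩
  exact hg

end Pool.Agent.ZGO.H63
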